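import Pool.Agent.H7.KR.Stmts

/-!
# Board `kr`, row WKS (helper26): in a dense graph nearly all vertices have large degree
-/

set_option autoImplicit false

open Finset

namespace Pool.KR

open Pool.Agent.H23.KT Pool.Agent.H46.KW Pool.KQ

theorem wks : WKSStmt := by
  intro p c₁ hc₁
  have h0 : (1 + c₁) * Real.exp (-c₁) < 1 := by
    have h1 : 1 + c₁ < Real.exp c₁ := by
      have := Real.add_one_lt_exp hc₁.ne'
      linarith
    calc (1 + c₁) * Real.exp (-c₁) < Real.exp c₁ * Real.exp (-c₁) :=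
          mul_lt_mul_of_pos_right h1 (Real.exp_pos _)
      _ = 1 := by rw [← Real.exp_add]; simp
  obtain ⟨c, hc⟩ : ∃ c : ℝ, (1 + c₁) * Real.exp (-c₁) = 1 - 3 * c :=
    ⟨(1 - (1 + c₁) * Real.exp (-c₁)) / 3, by ring⟩
  have hc0 : 0 < c := by linarith
  have hc1 : c < 1 := by
    have : 0 < (1 + c₁) * Real.exp (-c₁) := by positivity
    linarith
  have hlim : Filter.Tendsto
      (fun a : ℕ => Real.exp (-c₁) * (c₁ + 1 / (a : ℝ) + Real.exp (((p : ℝ) + 3) / (a : ℝ))))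
      Filter.atTop (nhds (Real.exp (-c₁) * (c₁ + 0 + Real.exp 0))) := by
    refine tendsto_const_nhds.mul ((tendsto_const_nhds.add
      tendsto_one_div_atTop_nhds_zero_nat).add ?_)
    exact (Real.continuous_exp.tendsto 0).comp (tendsto_const_div_atTop_nhds_zero_nat _)
  have hev : ∀ᶠ a : ℕ in Filter.atTop,
      Real.exp (-c₁) * (c₁ + 1 / (a : ℝ) + Real.exp (((p : ℝ) + 3) / (a : ℝ))) < 1 - 2 * c := by
    refine hlim.eventually_lt_const ?_
    rw [Real.exp_zero]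
    have h : Real.exp (-c₁) * (c₁ + 0 + 1) = 1 - 3 * c := by rw [← hc]; ring
    rw [h]
    linarith
  obtain ⟨a₁, ha₁⟩ := Filter.eventually_atTop.1 hev
  refine ⟨c, hc0, hc1, max a₁ 1, ?_⟩
  intro a ha V _ G W hCB hW hk
  have haa : a₁ ≤ a := le_trans (le_max_left _ _) ha
  have ha1 : 1 ≤ a := le_trans (le_max_right _ _) ha
  have ha0 : (0 : ℝ) < a := by exact_mod_cast ha1
  by_contra hcon
  push Not at hcon
  set X₀ := W.filter (fun x => ((nb G W x).card : ℝ) < ((p : ℝ) + 2 - c₁) * a) with hX₀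
  have hfl : ⌊c₁ * a⌋₊ + 1 ≤ X₀.card := by
    have h1 : ⌊c₁ * a⌋₊ < X₀.card := by
      rw [Nat.floor_lt (by positivity)]
      exact hcon
    omega
  obtain ⟨X, hXs, hXc⟩ := Finset.exists_subset_card_eq hfl
  have hXW : X ⊆ W := hXs.trans (Finset.filter_subset _ _)
  have hx1 : c₁ * a < X.card := by
    rw [hXc]
    push_cast
    exact Nat.lt_floor_add_one _
  have hx2 : (X.card : ℝ) ≤ c₁ * a + 1 := by
    rw [hXc]
    push_cast
    have := Nat.floor_le (show (0 : ℝ) ≤ c₁ * a by positivity)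
    linarith
  have hXne : X.Nonempty := by
    rw [← Finset.card_pos, hXc]
    omega
  have hdeg : ∀ u ∈ X, ((nb G W u).card : ℝ) < ((p : ℝ) + 2 - c₁) * a := fun u hu =>
    (Finset.mem_filter.1 (hXs hu)).2
  have hq0 : (0 : ℝ) < (p : ℝ) + 2 := by positivity
  have hb0 : (0 : ℝ) < (p : ℝ) + 3 := by positivity
  have hcq : c₁ < (p : ℝ) + 2 := by
    obtain ⟨u, hu⟩ := hXne
    have h1 := hdeg u hu
    have h2 : (0 : ℝ) ≤ ((nb G W u).card : ℝ) := Nat.cast_nonneg _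
    have h3 : (0 : ℝ) < ((p : ℝ) + 2 - c₁) * a := lt_of_le_of_lt h2 h1
    have h4 : (0 : ℝ) < (p : ℝ) + 2 - c₁ := pos_of_mul_pos_left h3 ha0.le
    linarith
  have hsum := kc_le_sum (G := G) W (p + 2) X hXW
  -- the neighbourhoods
  have hexp1 : ((1 - c₁ / ((p : ℝ) + 2))) ^ (p + 2) ≤ Real.exp (-c₁) := by
    have h1 : (0 : ℝ) ≤ 1 - c₁ / ((p : ℝ) + 2) := by
      rw [sub_nonneg, div_le_one hq0]
      exact hcq.le
    have h2 : 1 - c₁ / ((p : ℝ) + 2) ≤ Real.exp (-(c₁ / ((p : ℝ) + 2))) := by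
      have := Real.add_one_le_exp (-(c₁ / ((p : ℝ) + 2)))
      linarith
    calc (1 - c₁ / ((p : ℝ) + 2)) ^ (p + 2)
        ≤ Real.exp (-(c₁ / ((p : ℝ) + 2))) ^ (p + 2) := pow_le_pow_left₀ h1 h2 _
      _ = Real.exp (-c₁) := by
          rw [← Real.exp_nat_mul]
          congr 1
          push_cast
          field_simp
  have hnb : ∀ u ∈ X, (kc G (nb G W u) (p + 2) : ℝ) ≤ Real.exp (-c₁) * (a : ℝ) ^ (p + 2) := by
    intro u hu
    have h1 : CB G (nb G W u) (p + 2) := CB.nb hCB (hXW hu)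
    have h2 := zyk_real (G := G) (p + 1) (nb G W u) h1
    have h3 : ((nb G W u).card : ℝ) / (((p + 1 : ℕ) : ℝ) + 1) ≤
        (1 - c₁ / ((p : ℝ) + 2)) * a := by
      push_cast
      rw [show (p : ℝ) + 1 + 1 = (p : ℝ) + 2 by ring, div_le_iff₀ hq0]
      have h4 : (1 - c₁ / ((p : ℝ) + 2)) * a * ((p : ℝ) + 2) = ((p : ℝ) + 2 - c₁) * a := by
        field_simp
      rw [h4]
      exact (hdeg u hu).le
    calc (kc G (nb G W u) (p + 2) : ℝ)
        ≤ (((nb G W u).card : ℝ) / (((p + 1 : ℕ) : ℝ) + 1)) ^ (p + 1 + 1) := h2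
      _ ≤ ((1 - c₁ / ((p : ℝ) + 2)) * a) ^ (p + 1 + 1) :=
          pow_le_pow_left₀ (by positivity) h3 _
      _ = (1 - c₁ / ((p : ℝ) + 2)) ^ (p + 2) * (a : ℝ) ^ (p + 2) := by rw [mul_pow]
      _ ≤ Real.exp (-c₁) * (a : ℝ) ^ (p + 2) :=
          mul_le_mul_of_nonneg_right hexp1 (by positivity)
  have hpart1 : ((∑ u ∈ X, kc G (nb G W u) (p + 2) : ℕ) : ℝ) ≤
      (c₁ * a + 1) * (Real.exp (-c₁) * (a : ℝ) ^ (p + 2)) := by
    push_cast
    calc ∑ u ∈ X, (kc G (nb G W u) (p + 2) : ℝ)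
        ≤ ∑ _u ∈ X, Real.exp (-c₁) * (a : ℝ) ^ (p + 2) := Finset.sum_le_sum hnb
      _ = X.card * (Real.exp (-c₁) * (a : ℝ) ^ (p + 2)) := by
          rw [Finset.sum_const, nsmul_eq_mul]
      _ ≤ _ := mul_le_mul_of_nonneg_right hx2 (by positivity)
  -- the rest
  have hpart2 : (kc G (W \ X) (p + 2 + 1) : ℝ) ≤
      Real.exp (-c₁) * Real.exp (((p : ℝ) + 3) / a) * (a : ℝ) ^ (p + 3) := by
    have h1 : CB G (W \ X) (p + 2 + 1) := CB.mono hCB Finset.sdiff_subset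
    have h2 := zyk_real (G := G) (p + 2) (W \ X) h1
    have hcard : ((W \ X).card : ℝ) ≤ ((p : ℝ) + 3) * a + ((p : ℝ) + 3) - c₁ * a := by
      have h3 : (W \ X).card + X.card = W.card := Finset.card_sdiff_add_card_eq_card hXW
      have h4 : ((W \ X).card : ℝ) + X.card = W.card := by exact_mod_cast h3
      have h5 : (W.card : ℝ) ≤ ((p : ℝ) + 3) * a + ((p : ℝ) + 2) := by exact_mod_cast hW
      linarith
    have h3 : ((W \ X).card : ℝ) / (((p + 2 : ℕ) : ℝ) + 1) ≤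
        (1 + (1 / (a : ℝ) - c₁ / ((p : ℝ) + 3))) * a := by
      push_cast
      rw [show (p : ℝ) + 2 + 1 = (p : ℝ) + 3 by ring, div_le_iff₀ hb0]
      have h4 : (1 + (1 / (a : ℝ) - c₁ / ((p : ℝ) + 3))) * a * ((p : ℝ) + 3) =
          ((p : ℝ) + 3) * a + ((p : ℝ) + 3) - c₁ * a := by
        field_simp
        ring
      rw [h4]
      exact hcard
    have h5 : (0 : ℝ) ≤ 1 + (1 / (a : ℝ) - c₁ / ((p : ℝ) + 3)) := by
      have h6 : c₁ / ((p : ℝ) + 3) ≤ 1 := by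
        rw [div_le_one hb0]
        linarith
      have h7 : (0 : ℝ) ≤ 1 / (a : ℝ) := by positivity
      linarith
    have h6 : 1 + (1 / (a : ℝ) - c₁ / ((p : ℝ) + 3)) ≤
        Real.exp (1 / (a : ℝ) - c₁ / ((p : ℝ) + 3)) := by
      have := Real.add_one_le_exp (1 / (a : ℝ) - c₁ / ((p : ℝ) + 3))
      linarith
    calc (kc G (W \ X) (p + 2 + 1) : ℝ)
        ≤ (((W \ X).card : ℝ) / (((p + 2 : ℕ) : ℝ) + 1)) ^ (p + 2 + 1) := h2
      _ ≤ ((1 + (1 / (a : ℝ) - c₁ / ((p : ℝ) + 3))) * a) ^ (p + 2 + 1) :=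
          pow_le_pow_left₀ (by positivity) h3 _
      _ = (1 + (1 / (a : ℝ) - c₁ / ((p : ℝ) + 3))) ^ (p + 3) * (a : ℝ) ^ (p + 3) := by
          rw [mul_pow]
      _ ≤ Real.exp (1 / (a : ℝ) - c₁ / ((p : ℝ) + 3)) ^ (p + 3) * (a : ℝ) ^ (p + 3) :=
          mul_le_mul_of_nonneg_right (pow_le_pow_left₀ h5 h6 _) (by positivity)
      _ = _ := by
          rw [← Real.exp_nat_mul, ← Real.exp_add]
          congr 2
          push_cast
          field_simp
          ring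
  have htot : (kc G W (p + 3) : ℝ) ≤
      Real.exp (-c₁) * (c₁ + 1 / (a : ℝ) + Real.exp (((p : ℝ) + 3) / (a : ℝ))) *
        (a : ℝ) ^ (p + 3) := by
    have h1 : (kc G W (p + 3) : ℝ) ≤ ((∑ u ∈ X, kc G (nb G W u) (p + 2) : ℕ) : ℝ) +
        (kc G (W \ X) (p + 2 + 1) : ℝ) := by exact_mod_cast hsum
    calc (kc G W (p + 3) : ℝ) ≤ _ := h1
      _ ≤ (c₁ * a + 1) * (Real.exp (-c₁) * (a : ℝ) ^ (p + 2)) +
          Real.exp (-c₁) * Real.exp (((p : ℝ) + 3) / a) * (a : ℝ) ^ (p + 3) :=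
          add_le_add hpart1 hpart2
      _ = _ := by
          rw [pow_succ (a : ℝ) (p + 2)]
          field_simp
  have hM : (a : ℝ) ^ (p + 3) ≤ (bal (p + 3) ((p + 3) * a + (p + 2)) : ℝ) := by
    have h1 : bal (p + 3) ((p + 3) * a) ≤ bal (p + 3) ((p + 3) * a + (p + 2)) :=
      bal_mono (by omega) (by omega)
    rw [bal_mul_self (by omega)] at h1
    exact_mod_cast h1
  have hapos : (0 : ℝ) < (a : ℝ) ^ (p + 3) := by positivity
  have hlt := mul_lt_mul_of_pos_right (ha₁ a haa) hapos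
  have h1 : (1 - c) * (a : ℝ) ^ (p + 3) ≤
      (1 - c) * (bal (p + 3) ((p + 3) * a + (p + 2)) : ℝ) :=
    mul_le_mul_of_nonneg_left hM (by linarith)
  nlinarith [hlt, h1, htot, hk, mul_pos hc0 hapos]

end Pool.KR
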